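import Pool.Agent.HTW.WhR

/-!
# MP_04f515_gt: satellites with many full twists
-/

namespace Pool.Agent.Results.MP_04f515_gt.Framings

open Pool.Agent.HTW

/-- Let `D` be a diagram, with a crossing, of a knot `J` and let `u` be its writhe.  Consider
satellites `K` of `J` whose pattern is a tangle with `n` strands; the strands of the tangle have
the directions `true :: e` (`true` is upwards) at the bottom and at the top, and `v` is the winding
number.

If `D` is A-adequate and the pattern tangle `T` is isotopic to `P` followed by `m` full twists,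
where `P` is an A-adequate tangle diagram with the writhe `p` and `- c(D) < m`, then
`(n² - v²) (c(D) + m) + v² (c(D) - u) + (c(P) - p) ≤ 2 c(K)`, and if also
`n² c(D) + v² u ≤ m (n² - v²)` then `n² c(J) ≤ c(K)`.

If `D` and its mirror image are A-adequate, and if `T` is a tangle diagram such that `T` and its
mirror image are A-adequate, then `n² c(J) ≤ c(K)` for the satellites `K` with the patterns `T`
followed by `m` full twists, where `m` is an integer such that `|m| < c(D)` or
`n² c(D) + v² u ≤ m (n² - v²)` and `0 ≤ m` or `n² c(D) - v² u ≤ - m (n² - v²)` and `m ≤ 0`; so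
for all integers `m` if `v = 0`. -/
theorem result (D : Word) (hD : IsKnot D) (hA : AAdequate 1 D) (hc : 0 < crossings D) (u : ℤ)
    (hu : Wh.OR D [true] [true] u) (e : List Bool) (n : ℕ) (v : ℤ) (hn : n = e.length + 1)
    (hv : v = sgn (true :: e)) :
    (∀ (T P : Word) (p f m : ℤ), AAdequate n P → Wh.OR P (true :: e) (true :: e) p →
      PIso D n f T (P ++ Wh.ztwists n m) → -(crossings D : ℤ) < m → IsKnot (sat D n T) →
        ((n : ℤ) ^ 2 - v ^ 2) * (crossings D + m) + v ^ 2 * (crossings D - u) +
            (crossings P - p) ≤ 2 * (crossingNumber (sat D n T) : ℤ) ∧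
          ((n : ℤ) ^ 2 * crossings D + v ^ 2 * u ≤ m * ((n : ℤ) ^ 2 - v ^ 2) →
            n ^ 2 * crossingNumber D ≤ crossingNumber (sat D n T))) ∧
      (AAdequate 1 (mirror D) → ∀ (T : Word) (t m : ℤ), AAdequate n T → AAdequate n (mirror T) →
        Wh.OR T (true :: e) (true :: e) t → IsKnot (sat D n (T ++ Wh.ztwists n m)) →
        (|m| < crossings D ∨
          (0 ≤ m ∧ (n : ℤ) ^ 2 * crossings D + v ^ 2 * u ≤ m * ((n : ℤ) ^ 2 - v ^ 2)) ∨
          (m ≤ 0 ∧ (n : ℤ) ^ 2 * crossings D - v ^ 2 * u ≤ -m * ((n : ℤ) ^ 2 - v ^ 2)) ∨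
          v = 0) →
        n ^ 2 * crossingNumber D ≤ crossingNumber (sat D n (T ++ Wh.ztwists n m))) := by
  subst hn
  subst hv
  refine ⟨?_, ?_⟩
  · intro T P p f m hP hp hTP hm hK
    exact ⟨Wh.semi_adequate hD hA hc hP hp hu hTP hm hK,
      Wh.semi_adequate_sq hD hA hc hP hp hu hTP hm hK⟩
  · intro hB T t m hTA hTB ht hK h
    refine Wh.framings hD hA hB hc hTA hTB ht hu hK ?_
    rcases h with h | h | h | h
    · exact Or.inl h
    · exact Or.inr (Or.inl h)
    · exact Or.inr (Or.inr h)
    · rw [h]
      have hn : (0 : ℤ) < ((e.length + 1 : ℕ) : ℤ) ^ 2 := by positivity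
      rcases lt_or_ge |m| (crossings D : ℤ) with h1 | h1
      · exact Or.inl h1
      · rcases Int.le_total 0 m with h0 | h0
        · rw [abs_of_nonneg h0] at h1
          refine Or.inr (Or.inl ⟨h0, ?_⟩)
          have := mul_le_mul_of_nonneg_left h1 hn.le
          linarith
        · rw [abs_of_nonpos h0] at h1
          refine Or.inr (Or.inr ⟨h0, ?_⟩)
          have := mul_le_mul_of_nonneg_left h1 hn.le
          linarith

end Pool.Agent.Results.MP_04f515_gt.Framings
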