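import Pool.Agent.HTW.Kinks

/-!
# MP_04f515_gt: the crossing number of satellites of adequate knots
-/

namespace Pool.Agent.Results.MP_04f515_gt.SatelliteCrossing

open Pool.Agent.HTW

/-- Let `D` be an adequate diagram of a knot `J` (A-adequate, and so is its mirror image), and
let `T` be a tangle diagram with `n` strands such that the satellite `K = sat D n T` is a knot.
Assume that `T` is isotopic to `P` followed by `k` negative full twists, and to the mirror image
of `Q` followed by `l` positive full twists, where the writhe changes by `f` and by `g` in these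
isotopies, `P` and `Q` are A-adequate tangle diagrams, whose all-A states consist of `n`
vertical arcs and circles, and `k` and `l` are smaller than the number of crossings of `D`.  Then
`2 n² c(J) + max(0, c(P) + c(Q) - (k + l) n (n - 1) + g - f) ≤ 2 c(K)`; in particular
`n² c(J) ≤ c(K)`. -/
theorem result (D : Word) (hD : IsKnot D) (hA : AAdequate 1 D) (hB : AAdequate 1 (mirror D))
    (n : ℕ) (hn : 1 ≤ n) (T P Q : Word) (k l : ℕ) (f g : ℤ) (hK : IsKnot (sat D n T))
    (hTP : PIso D n f T (P ++ twists .neg n k))
    (hTQ : PIso D n g T (mirror Q ++ twists .pos n l))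
    (hP : AAdequate n P) (hQ : AAdequate n Q) (hk : k < crossings D) (hl : l < crossings D) :
    2 * ((n : ℤ) ^ 2 * crossingNumber D) +
        max 0 ((crossings P : ℤ) + crossings Q - (k + l) * (n * (n - 1)) + (g - f)) ≤
      2 * (crossingNumber (sat D n T) : ℤ) := by
  obtain ⟨h1, h2⟩ := main_kink hD hA hB hn hTP hTQ hP hQ hk hl hK
  rw [max_eq_right h1]
  exact h2

end Pool.Agent.Results.MP_04f515_gt.SatelliteCrossing
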