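import Pool.Agent.HTW.Additive

/-!
# MP_04f515_gt: satellites of adequate knots whose pattern has winding number equal to its
# wrapping number
-/

namespace Pool.Agent.Results.MP_04f515_gt.UpToConstant

open Pool.Agent.HTW

/-- Let `D` be an adequate diagram of a knot `J` and let `T` be a tangle diagram with `n` strands
such that all strands of `T` can be oriented upwards (the pattern has winding number `n`), or `T`
is A-adequate, or its mirror image is A-adequate.  Let `K` be the satellite of `D` with the
pattern `T` followed by `m` full twists of either sign, `m < c(J)`, and assume that `K` is a knot.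
Then `c(K) ≥ n² c(J) - 2 (n + 1) (|T| + 1) (c(J) / (c(J) - m))²`, where `|T|` is the number of
letters of `T`. -/
theorem result (D : Word) (hD : IsKnot D) (hA : AAdequate 1 D) (hB : AAdequate 1 (mirror D))
    (n : ℕ) (hn : 1 ≤ n) (T : Word)
    (hT : ORun T (List.replicate n true) (List.replicate n true) ∨ AAdequate n T ∨
      AAdequate n (mirror T))
    (k : Kind) (hk : k = .pos ∨ k = .neg) (m : ℕ) (hm : m < crossingNumber D)
    (hK : IsKnot (sat D n (T ++ twists k n m))) :
    (n : ℝ) ^ 2 * crossingNumber D - 2 * (n + 1) * (T.length + 1) *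
        ((crossingNumber D : ℝ) / (crossingNumber D - m)) ^ 2 ≤
      crossingNumber (sat D n (T ++ twists k n m)) := by
  have hc : crossingNumber D ≤ crossings D := crossingNumber_le (Relation.EqvGen.refl D)
  have he : crossingNumber D = crossings D := crossingNumber_adequate hD hA hB (by omega)
  have h := additive hD hA hB hn hT hk (m := m) (by omega) hK
  rw [← he] at h
  have hd : (0 : ℝ) < (crossingNumber D : ℝ) - m := by
    have : (m : ℝ) < crossingNumber D := by exact_mod_cast hm
    linarith
  have h1 : ((crossingNumber D : ℝ) - m) ^ 2 * ((n : ℝ) ^ 2 * crossingNumber D) ≤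
      ((crossingNumber D : ℝ) - m) ^ 2 * crossingNumber (sat D n (T ++ twists k n m)) +
        2 * (n + 1) * (T.length + 1) * (crossingNumber D : ℝ) ^ 2 := by
    have h2 : ((crossingNumber D - m : ℕ) : ℝ) = (crossingNumber D : ℝ) - m :=
      Nat.cast_sub hm.le
    rw [← h2]
    exact_mod_cast h
  have h3 : 0 < ((crossingNumber D : ℝ) - m) ^ 2 := by positivity
  have h4 : 2 * ((n : ℝ) + 1) * (T.length + 1) *
      ((crossingNumber D : ℝ) / (crossingNumber D - m)) ^ 2 * ((crossingNumber D : ℝ) - m) ^ 2 =
      2 * (n + 1) * (T.length + 1) * (crossingNumber D : ℝ) ^ 2 := by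
    field_simp
  nlinarith

end Pool.Agent.Results.MP_04f515_gt.UpToConstant
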