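import Pool.Agent.HTW.WhV

/-!
# MP_04f515_gt: the crossing number of Whitehead doubles of adequate knots
-/

namespace Pool.Agent.Results.MP_04f515_gt.WhiteheadDoubles

open Pool.Agent.HTW

/-- Let `D` be an adequate diagram, with a crossing, of a knot `J` (A-adequate, and so is its
mirror image), and let `K` be a Whitehead double of `J`: the satellite of `D` whose pattern is a
clasp of sign `a` followed by `m` full twists of sign `s`, relative to the blackboard framing of
`D`; the signs and the number `m` are arbitrary, so that `K` is any Whitehead double of `J`, with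
any framing.  Then `4 c(J) ≤ c(K)`, even `4 c(J) + 1 ≤ c(K)` if `m < c(J)`, and
`2 c(J) + 2 m ≤ c(K)`. -/
theorem result (D : Word) (hD : IsKnot D) (hA : AAdequate 1 D) (hB : AAdequate 1 (mirror D))
    (hc : 0 < crossings D) (a s : Kind) (ha : a = Kind.pos ∨ a = Kind.neg)
    (hs : s = Kind.pos ∨ s = Kind.neg) (m : ℕ) :
    IsKnot (sat D 2 (clasp a ++ twists s 2 m)) ∧
      max (4 * crossingNumber D + (if m < crossingNumber D then 1 else 0))
          (2 * crossingNumber D + 2 * m) ≤
        crossingNumber (sat D 2 (clasp a ++ twists s 2 m)) := by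
  refine ⟨?_, Wh.whitehead_all hD hA hB hc ha hs m⟩
  rw [Wh.twists_two]
  exact Wh.isKnot_sat hD ((Wh.claspLike_clasp ha).append (Wh.tw_rep hs _))

end Pool.Agent.Results.MP_04f515_gt.WhiteheadDoubles
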